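import Pool.Agent.H59.LIN.Targets

/-!
# The row UQ: uniqueness of the skein invariant
-/

set_option autoImplicit false

open Finset Polynomial

namespace Pool.Agent.H16.LIN

open Pool.Agent.H59.LIN

theorem pf_UQ (hIND : Pool.Agent.H59.LIN.T_IND) : Pool.Agent.H59.LIN.T_UQ := by
  intro K _ s δ κ' T T' hκ h h'
  refine hIND (fun n w => T n w = T' n w) ?_
  refine ⟨?_, ?_, ?_, ?_, ?_, ?_, ?_, ?_, ?_⟩
  · rw [h.one, h'.one]
  · intro n w hw
    rw [h.dis, h'.dis, hw]
  · intro n w b hw
    rw [h.stab, h'.stab, hw]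
  · intro n u v hw
    rw [← h.conj, ← h'.conj, hw]
  · intro n u v i b hw
    rw [h.cancel, h'.cancel, hw]
  · intro n u v i j b c hij hw
    rcases hij with hij | hij
    · rw [← h.far n u v i j b c hij, ← h'.far n u v i j b c hij, hw]
    · rw [h.far n u v j i c b hij, h'.far n u v j i c b hij, hw]
  · intro n u v i j hij hw
    rw [← h.braid n u v i j hij, ← h'.braid n u v i j hij, hw]
  · intro n u v i h1 h2
    rw [h.skein, h'.skein, h1, h2]
  · intro n u v i h1 h2
    have e1 := h.skein n u v i
    have e2 := h'.skein n u v i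
    rw [h1, h2] at e1
    have e3 : (1 - s * δ) * T n (u ++ (i, false) :: v) =
        (1 - s * δ) * T' n (u ++ (i, false) :: v) :=
      add_right_cancel (e1.symm.trans e2)
    calc T n (u ++ (i, false) :: v) =
        κ' * ((1 - s * δ) * T n (u ++ (i, false) :: v)) := by
          rw [← mul_assoc, mul_comm κ', hκ, one_mul]
      _ = κ' * ((1 - s * δ) * T' n (u ++ (i, false) :: v)) := by rw [e3]
      _ = T' n (u ++ (i, false) :: v) := by
          rw [← mul_assoc, mul_comm κ', hκ, one_mul]

end Pool.Agent.H16.LIN
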